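import Pool.Agent.H14.PNF.Base
import Pool.Agent.H73.PRK.KEYY
import Pool.Agent.H90.NF.KEYN

/-!
# PNF, row KEYYN: the pair of matrices of a class with given types at the primes of `T`

The degrees are `⌈d i⌉ + 2`, so that the factor `18` of the second matrix is absorbed
(`18 ≤ exp 4`).
-/

set_option autoImplicit false

namespace Pool.PNF

open Polynomial Matrix NumberField IsDedekindDomain Pool.HYP Pool.TOW Pool.AVS Pool.T1 Pool.NF
  Pool.PRK Pool.T1.H96K Pool.PRK.Keyy73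

theorem exp_four : (18 : ℝ) ≤ Real.exp 4 := by
  have h1 : (2.7 : ℝ) ≤ Real.exp 1 := by
    have := Real.exp_one_gt_d9
    linarith
  have h2 : Real.exp 4 = Real.exp 1 ^ 4 := by
    rw [← Real.exp_nat_mul]
    norm_num
  rw [h2]
  calc (18 : ℝ) ≤ 2.7 ^ 4 := by norm_num
    _ ≤ Real.exp 1 ^ 4 := pow_le_pow_left₀ (by norm_num) h1 4

theorem keyyn (hLATY : LATYStmt) (hINF : INFNStmt) (hMKN : MKNStmt) (hEBN : EBNStmt)
    (hNRM : NRMStmt) : KEYYNStmt := by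
  intro K _ _ hIRR
  obtain ⟨C0, hC0⟩ := hMKN K 3 4 (by norm_num)
  refine ⟨max (max (C0 + 9) 9) ((6 * (9 * 1) ^ 3 * Real.exp (2 * (C0 + 3))) ^ dg K),
    le_trans (by norm_num) (le_trans (le_max_right (C0 + 9) 9) (le_max_left _ _)), ?_⟩
  intro B hB D Y hOk hY hT ϖ hUni y hy a ha haB f hf hPat
  have hB1 : C0 + 9 ≤ B := le_trans (le_trans (le_max_left _ _) (le_max_left _ _)) hB
  have hB2 : 9 ≤ B := le_trans (le_trans (le_max_right _ _) (le_max_left _ _)) hB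
  have hB3 : (6 * (9 * 1) ^ 3 * Real.exp (2 * (C0 + 3))) ^ dg K ≤ B :=
    le_trans (le_max_right _ _) hB
  have hinj : Function.Injective (algebraMap (𝓞 K) K) := IsFractionRing.injective (𝓞 K) K
  obtain ⟨ha0, hodd, heven⟩ := ha
  have haK : algebraMap (𝓞 K) K a ≠ 0 := fun h0 => ha0 (hinj (by rw [h0, map_zero]))
  have hdl : 0 ≤ dl D.T y := Real.rpow_nonneg (Nat.cast_nonneg _) _
  obtain ⟨α, hU, hns, hTy⟩ := hPat
  have hcop := hU.1
  have hN := hU.2.1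
  have hm : f.Monic := hf.1
  have hdeg : f.natDegree = 3 := hf.2.1
  have h2T : ∀ P ∈ D.T, (2 : 𝓞 K) ∉ P.asIdeal := fun P hP h2 =>
    (Finset.disjoint_left.1 hOk.1 hP) (hOk.2.2.2 P (Or.inl h2))
  have hL : ∃ Λ : Submodule (𝓞 K) (Fin 3 → K),
      (∃ E : Matrix (Fin 3) (Fin 3) K, E.det ≠ 0 ∧ ∀ j, (fun i => E i j) ∈ Λ) ∧
      (∀ v : Fin 3 → K, v ∈ Λ ↔
        ∀ x ∈ Λ, x ⬝ᵥ (gr 0 3 (fk K f) α *ᵥ v) ∈ Set.range (algebraMap (𝓞 K) K)) ∧
      (∀ x ∈ Λ, ∀ v ∈ Λ,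
        (∀ P : HeightOneSpectrum (𝓞 K), P ∉ odd D.T y →
          x ⬝ᵥ (gr 1 3 (fk K f) α *ᵥ v) ∈ RP K P) ∧
        algebraMap (𝓞 K) K a * (x ⬝ᵥ (gr 1 3 (fk K f) α *ᵥ v)) ∈
          Set.range (algebraMap (𝓞 K) K)) ∧
      ∀ P ∈ D.T, ∀ (E : Matrix (Fin 3) (Fin 3) K) (G S : Matrix (Fin 3) (Fin 3) (𝓞 K)),
        (∀ j, (fun i => E i j) ∈ Λ) → G.det ∉ P.asIdeal →
        Eᵀ * gr 0 3 (fk K f) α * E = G.map (algebraMap (𝓞 K) K) →
        algebraMap (𝓞 K) K a • (Eᵀ * gr 1 3 (fk K f) α * E) = S.map (algebraMap (𝓞 K) K) →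
        LocS 1 P.asIdeal a (D.c P) (D.γ P) f (y P) G S :=
    hLATY (𝓞 K) K two_ne_zero (fun I hI => Ideal.finiteQuotientOfFreeOfNeBot I hI) 1 f α D.T D.c ϖ
      D.γ y a le_rfl hm hdeg hUni ha0 h2T hOk.2.1 hf.2.2.2.1 hy hodd heven hU hTy
  obtain ⟨Λ, hΛE, hΛd, hΛ1, hΛT⟩ := hL
  have hirr := hIRR D Y hOk f hf
  obtain ⟨gi, hgc, hgi⟩ := hINF K f Y α hY hm hdeg hf.2.2.1 hirr hcop
  obtain ⟨E, d, hE, hEΛ, hd, hdC, hEO⟩ := hC0 Λ (gr 0 3 (fk K f) α) gi (gr_symm _ _)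
    hΛE hΛd hgc (fun σ => ⟨(hgi σ).1, (hgi σ).2.2.1⟩)
  -- the matrices
  have hGex : ∀ i j : Fin 3, ∃ b : 𝓞 K,
      algebraMap (𝓞 K) K b = (Eᵀ * gr 0 3 (fk K f) α * E) i j := fun i j => by
    rw [entry]
    exact (hΛd _).1 (hEΛ j) _ (hEΛ i)
  have hSex : ∀ i j : Fin 3, ∃ b : 𝓞 K,
      algebraMap (𝓞 K) K b =
        (algebraMap (𝓞 K) K a • (Eᵀ * gr 1 3 (fk K f) α * E)) i j := fun i j => by
    rw [Matrix.smul_apply, smul_eq_mul, entry]
    exact (hΛ1 _ (hEΛ i) _ (hEΛ j)).2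
  choose G hG using hGex
  choose S hS using hSex
  obtain ⟨G', hG'⟩ : ∃ G' : Matrix (Fin 3) (Fin 3) (𝓞 K), G' = Matrix.of G := ⟨_, rfl⟩
  obtain ⟨S', hS'⟩ : ∃ S' : Matrix (Fin 3) (Fin 3) (𝓞 K), S' = Matrix.of S := ⟨_, rfl⟩
  have hMG : Eᵀ * gr 0 3 (fk K f) α * E = G'.map (algebraMap (𝓞 K) K) := by
    refine Matrix.ext fun i j => ?_
    rw [hG', Matrix.map_apply]
    exact (hG i j).symm
  have hMS : algebraMap (𝓞 K) K a • (Eᵀ * gr 1 3 (fk K f) α * E) =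
      S'.map (algebraMap (𝓞 K) K) := by
    refine Matrix.ext fun i j => ?_
    rw [hS', Matrix.map_apply]
    exact (hS i j).symm
  have hGt : G'ᵀ = G' := by
    have h1 : (G'ᵀ).map (algebraMap (𝓞 K) K) = G'.map (algebraMap (𝓞 K) K) := by
      rw [Matrix.transpose_map, ← hMG, Matrix.transpose_mul, Matrix.transpose_mul,
        Matrix.transpose_transpose, gr_symm, Matrix.mul_assoc]
    refine Matrix.ext fun i j => hinj ?_
    exact congrFun (congrFun h1 i) j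
  have hSt : S'ᵀ = S' := by
    have h1 : (S'ᵀ).map (algebraMap (𝓞 K) K) = S'.map (algebraMap (𝓞 K) K) := by
      rw [Matrix.transpose_map, ← hMS, Matrix.transpose_smul, Matrix.transpose_mul,
        Matrix.transpose_mul, Matrix.transpose_transpose, gr_symm, Matrix.mul_assoc]
    refine Matrix.ext fun i j => hinj ?_
    exact congrFun (congrFun h1 i) j
  have hdet : ∀ A : Matrix (Fin 3) (Fin 3) (𝓞 K),
      (A.map (algebraMap (𝓞 K) K)).det = algebraMap (𝓞 K) K A.det := fun A => by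
    rw [RingHom.map_det]
    rfl
  -- the sizes
  obtain ⟨e, he⟩ : ∃ e : Fin 3 → ℤ, e = fun i => ⌈d i⌉ := ⟨_, rfl⟩
  have hde : ∀ i, d i ≤ e i := fun i => by rw [he]; exact Int.le_ceil _
  have hed : ∀ i, (e i : ℝ) ≤ d i + 1 := fun i => by rw [he]; exact (Int.ceil_lt_add_one _).le
  have hes : ((∑ i, e i : ℤ) : ℝ) ≤ C0 + 3 := by
    rw [Fin.sum_univ_three] at hdC
    push_cast
    rw [Fin.sum_univ_three]
    have h0 := hed 0
    have h1 := hed 1
    have h2 := hed 2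
    linarith
  have hemono : Monotone e := fun i j hij => by
    rw [he]
    exact Int.ceil_mono (hd hij)
  have hexp : ∀ i j : Fin 3, Real.exp (((e i + 2) + (e j + 2) : ℤ) : ℝ) =
      Real.exp 4 * Real.exp ((e i + e j : ℤ) : ℝ) := fun i j => by
    rw [← Real.exp_add]
    congr 1
    push_cast
    ring
  obtain ⟨hGB, hdB⟩ := hEBN K (gr 0 3 (fk K f) α) E G' gi d e 1 zero_le_one hde hMG
    (fun σ => (hgi σ).1) (fun σ => (hgi σ).2.1) hEO
  have hMS' : Eᵀ * (algebraMap (𝓞 K) K a • gr 1 3 (fk K f) α) * E =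
      S'.map (algebraMap (𝓞 K) K) := by
    rw [← hMS, Matrix.mul_smul, Matrix.smul_mul]
  have hgS : ∀ σ i j, ‖((gi σ)ᵀ * (algebraMap (𝓞 K) K a • gr 1 3 (fk K f) α).map σ * gi σ) i j‖ ≤
      B * dl D.T y * (2 * Y) := fun σ i j => by
    have h1 : (algebraMap (𝓞 K) K a • gr 1 3 (fk K f) α).map σ =
        σ (algebraMap (𝓞 K) K a) • (gr 1 3 (fk K f) α).map σ := by
      refine Matrix.ext fun k l => ?_
      rw [Matrix.map_apply, Matrix.smul_apply, Matrix.smul_apply, Matrix.map_apply, smul_eq_mul,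
        smul_eq_mul, map_mul]
    rw [h1, Matrix.mul_smul, Matrix.smul_mul, Matrix.smul_apply, smul_eq_mul, norm_mul]
    exact mul_le_mul (haB σ) ((hgi σ).2.2.2 i j) (norm_nonneg _)
      (mul_nonneg (by linarith) hdl)
  obtain ⟨hSB, -⟩ := hEBN K (algebraMap (𝓞 K) K a • gr 1 3 (fk K f) α) E S' gi d e
    (B * dl D.T y * (2 * Y)) (mul_nonneg (mul_nonneg (by linarith) hdl) (by positivity)) hde hMS'
    (fun σ => (hgi σ).1) hgS hEO
  have hGO : ∀ i j, G' i j ∈ Bx K (B * Real.exp (((e i + 2) + (e j + 2) : ℤ) : ℝ)) := fun i j => by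
    refine Bx_mono ?_ (hGB i j)
    rw [hexp, mul_one]
    refine mul_le_mul hB2 ?_ (Real.exp_nonneg _) (by linarith)
    have := exp_four
    exact le_mul_of_one_le_left (Real.exp_nonneg _) (by linarith)
  have hSO : ∀ i j, S' i j ∈
      Bx K (B * Real.exp (((e i + 2) + (e j + 2) : ℤ) : ℝ) * Y * dl D.T y) := fun i j => by
    refine Bx_mono ?_ (hSB i j)
    rw [hexp]
    have h1 : 9 * (B * dl D.T y * (2 * (Y : ℝ))) * Real.exp ((e i + e j : ℤ) : ℝ) =
        18 * (B * Real.exp ((e i + e j : ℤ) : ℝ) * Y * dl D.T y) := by ring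
    have h2 : B * (Real.exp 4 * Real.exp ((e i + e j : ℤ) : ℝ)) * Y * dl D.T y =
        Real.exp 4 * (B * Real.exp ((e i + e j : ℤ) : ℝ) * Y * dl D.T y) := by ring
    rw [h1, h2]
    refine mul_le_mul_of_nonneg_right exp_four ?_
    exact mul_nonneg (mul_nonneg (mul_nonneg (by linarith) (Real.exp_nonneg _))
      (Nat.cast_nonneg _)) hdl
  -- the determinant
  have hGam : (gr 0 3 (fk K f) α).det ≠ 0 := fun h0 => by
    obtain ⟨σ⟩ : Nonempty (K →+* ℂ) := inferInstance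
    have h1 := (hgi σ).2.2.1
    rw [Matrix.det_mul, Matrix.det_mul] at h1
    have h2 : ((gr 0 3 (fk K f) α).map σ).det = 0 := by
      have h3 : ((gr 0 3 (fk K f) α).map σ).det = σ (gr 0 3 (fk K f) α).det := by
        rw [RingHom.map_det]
        rfl
      rw [h3, h0, map_zero]
    rw [h2, mul_zero, zero_mul, norm_zero] at h1
    norm_num at h1
  have hKd : (G'.map (algebraMap (𝓞 K) K)).det ≠ 0 := by
    rw [← hMG, Matrix.det_mul, Matrix.det_mul, Matrix.det_transpose]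
    exact mul_ne_zero (mul_ne_zero hE hGam) hE
  have hGd : G'.det ≠ 0 := fun h0 => hKd (by rw [hdet, h0, map_zero])
  have hdetT : ∀ P ∈ D.T, G'.det ∉ P.asIdeal := fun P hP hmem => by
    have h1 := ((hNRM K G'.det _ hdB).2 hGd).2 P.asIdeal hmem
    have h2 := hT P hP
    have h3 : (6 * (9 * 1) ^ 3 * Real.exp ((2 * ∑ i, e i : ℤ) : ℝ)) ^ dg K ≤
        (6 * (9 * 1) ^ 3 * Real.exp (2 * (C0 + 3))) ^ dg K := by
      refine pow_le_pow_left₀ (by positivity) (mul_le_mul_of_nonneg_left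
        (Real.exp_le_exp.2 ?_) (by norm_num)) _
      push_cast at hes ⊢
      linarith
    have h4 : ((Ni P.asIdeal : ℕ) : ℝ) = (Nm P : ℝ) := rfl
    rw [h4] at h1
    linarith
  have hfm : (fk K f).Monic := hm.map _
  have hfd : (fk K f).natDegree = 3 := by rw [hm.natDegree_map, hdeg]
  have hrep : Rep 3 (fk K f) α (G'.map (algebraMap (𝓞 K) K))
      (Eᵀ * gr 1 3 (fk K f) α * E) := by
    rw [← hMG]
    exact Pool.HYP.H2.rep_comb _ _ _
  refine ⟨fun i => e i + 2, G', S', fun i j hij => by simpa using hemono hij, ?_, hGt, hSt, hGO,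
    hSO, hGd, ?_, fun P hP => ?_, fun hz => ?_⟩
  · rw [Fin.sum_univ_three] at hes ⊢
    push_cast at hes ⊢
    linarith
  · have h3 := pen_twist _ _ _ haK hfd (Pool.HYP.chp K 3 (fk K f) α
      (G'.map (algebraMap (𝓞 K) K)) (Eᵀ * gr 1 3 (fk K f) α * E) hfm hfd hrep hKd)
    have h4 : pen (G'.map (algebraMap (𝓞 K) K)) (S'.map (algebraMap (𝓞 K) K)) =
        (Polynomial.mapRingHom (algebraMap (𝓞 K) K)).mapMatrix (pen G' S') := by
      refine Matrix.ext fun i j => ?_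
      show X * C ((algebraMap (𝓞 K) K) (G' i j)) - C ((algebraMap (𝓞 K) K) (S' i j))
        = Polynomial.map (algebraMap (𝓞 K) K) (X * C (G' i j) - C (S' i j))
      rw [Polynomial.map_sub, Polynomial.map_mul, Polynomial.map_X, Polynomial.map_C,
        Polynomial.map_C]
    rw [hMS, h4, ← RingHom.map_det, hdet] at h3
    refine Polynomial.map_injective _ hinj ?_
    rw [Polynomial.map_mul, Polynomial.map_C,
      Polynomial.map_scaleRoots f a (algebraMap (𝓞 K) K) (by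
        rw [hm.leadingCoeff, map_one]
        exact one_ne_zero)]
    exact h3
  · exact hΛT P hP E G' S' hEΛ (hdetT P hP) hMG hMS
  · refine hns (Pool.HYP.dist K 1 (fk K f) α (G'.map (algebraMap (𝓞 K) K))
      (Eᵀ * gr 1 3 (fk K f) α * E) le_rfl hfm hfd hirr hN hKd hrep fun i j hi hj => ?_)
    have hi0 : i = 0 := Fin.ext (by simpa using hi)
    have hj0 : j = 0 := Fin.ext (by simpa using hj)
    obtain ⟨h3, h4⟩ := hz
    subst hi0
    subst hj0
    constructor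
    · show algebraMap (𝓞 K) K (G' 0 0) = 0
      rw [h3, map_zero]
    · have h5 : algebraMap (𝓞 K) K (S' 0 0) =
          algebraMap (𝓞 K) K a * (Eᵀ * gr 1 3 (fk K f) α * E) 0 0 := by
        have h6 : (S'.map (algebraMap (𝓞 K) K)) 0 0 =
            (algebraMap (𝓞 K) K a • (Eᵀ * gr 1 3 (fk K f) α * E)) 0 0 := by rw [hMS]
        exact h6
      rw [h4, map_zero] at h5
      exact (mul_eq_zero.1 h5.symm).resolve_left haK

end Pool.PNF
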